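import Pool.Agent.W900.RB.Fin
import Pool.Agent.W900.RB.NB

/-!
# How many strings of a random oracle have to be changed for each of the possible relations between
`BPP` and `NP`?

For almost every oracle `O`, `BPP^O = P^O` is a proper subclass of `NP^O` (Bennett, Gill). Here the
oracle `O` is changed by an adversary who knows it: for a function `g`, the oracle `A` is obtained
from `O` by changing, for all large `n`, at most `g n` of the strings of length at most `n`. We
determine which of the four possible relations between `BPP` and `NP` can be attained, for every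
`g`:

* `BPP` properly contained in `NP`: always (by `O` itself, for almost every `O`);
* `BPP` and `NP` incomparable: if and only if `g` is not polynomially bounded;
* `BPP = NP`, and also `NP` properly contained in `BPP`: if and only if `g` is not subexponential.

Here the negative statements mean: for almost every `O` there is no such `A` with at most `g` changes.
-/

set_option autoImplicit false

namespace Pool.Agent.Results.MP_b6562f_lc.ChangedStrings

open Pool.Agent.NPC Pool.Agent.H620R2.Gauge Pool.Agent.W900.RB Pool.Agent.W900.CH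
open Pool.Agent.H628R3.RO (randomOracle)
open MeasureTheory

/-- `g` is polynomially bounded: for some `c` and all large `n` there is `m ≥ n` with
`g m ≤ n ^ c`. (For nondecreasing `g` this says that `g n ≤ n ^ c` for all large `n`.) -/
def PolyBdd (g : ℕ → ℝ) : Prop :=
  ∃ c : ℕ, ∀ᶠ n : ℕ in Filter.atTop, ∃ m ≥ n, g m ≤ (n : ℝ) ^ c

/-- `g` is subexponential at infinitely many places. -/
def Subexp (g : ℕ → ℝ) : Prop :=
  ∀ ε : ℝ, 0 < ε → ∃ᶠ n : ℕ in Filter.atTop, g n ≤ 2 ^ (n : ℝ) ^ ε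

theorem result (g : ℕ → ℝ) :
    (PolyBdd g → ∀ᵐ O ∂randomOracle, ∀ A : Oracle, Close g O A →
      (∀ L, IsBPP A L ↔ IsP A L) ∧ (∀ L, IsBPP A L → IsNP A L) ∧ ∃ L, IsNP A L ∧ ¬ IsBPP A L) ∧
    (¬ PolyBdd g → ∀ᵐ O ∂randomOracle, ∃ A : Oracle, Close g O A ∧
      (∃ L, IsBPP A L ∧ ¬ IsNP A L) ∧ ∃ L, IsNP A L ∧ ¬ IsBPP A L) ∧
    (Subexp g → ∀ᵐ O ∂randomOracle, ∀ A : Oracle, Close g O A →
      ∃ L, IsNP A L ∧ ¬ IsBPP A L ∧ ¬ WithAdvice (IsNP A) Lᶜ) ∧
    (¬ Subexp g → ∀ O : Oracle,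
      (∃ A : Oracle, Close g O A ∧ ∀ L, IsNP A L ↔ IsBPP A L) ∧
      ∃ A : Oracle, Close g O A ∧ (∀ L, IsNP A L ∨ IsNEXP A L → IsBPP A L) ∧
        ∃ L, IsBPP A L ∧ ¬ IsNP A L) := by
  refine ⟨fun h => ?_, fun h => ?_, fun h => ?_, fun h O => ⟨?_, ?_⟩⟩
  · have hs : ¬ Super g := by
      unfold Super
      push Not
      exact h
    obtain ⟨c, hc⟩ := pclose_of_not_super hs
    filter_upwards [ae_bpp, ae_coNP (low_of_poly h)] with O h1 h2 A hA
    have h3 := h1 A ⟨c, hc O A hA⟩
    obtain ⟨L, h4, h5⟩ := h2 A hA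
    exact ⟨fun L => ⟨h3 L, isBPP_of_isP⟩, fun L hL => (h3 L hL).isNP, L, h4,
      fun h6 => h5 (withAdvice_compl h6)⟩
  · filter_upwards [exists_rp_np (super_of_not h)] with O hO
    obtain ⟨A, hA, ⟨L, h1, h2⟩, L', h3, h4⟩ := hO
    exact ⟨A, hA, ⟨Lᶜ, isBPP_compl (isBPP_of_isRP h1), h2⟩, L', h3,
      fun h5 => h4 (withAdvice_compl h5)⟩
  · filter_upwards [ae_coNP h] with O hO A hA
    obtain ⟨L, h1, h2⟩ := hO A hA
    exact ⟨L, h1, fun h5 => h2 (withAdvice_compl h5), h2⟩
  · obtain ⟨A, h1, h2⟩ := exists_close_both h O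
    exact ⟨A, h1, fun L => ⟨fun hL => isBPP_of_isRP (isRP_of_isZPP (h2 L (Or.inl hL))),
      fun hL => (h2 L (Or.inr hL)).isNP⟩⟩
  · obtain ⟨A, h1, h2, h3⟩ := exists_close_BPP h O
    exact ⟨A, h1, fun L hL => h2 L (hL.elim (fun h => h.isNEXP) id), h3⟩

end Pool.Agent.Results.MP_b6562f_lc.ChangedStrings
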