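import Pool.Agent.W901.RL.Laws
import Pool.Agent.W376.RL.ANTI

/-!
# `NP ⊆ BPP` and the exact threshold for guessing the answers to many `NP` questions

Polynomial time is Mathlib's `Turing.TM2ComputableInPolyTime`; `InNP`, `NPHard` are those of
`Pool.Agent.NPC.Defs`, `InRP`, `InBPP` those of `Pool.Agent.W920.NL.DefsR`, `Reachable` and `Solvable`
those of `Pool.Agent.W901.RL.DefsL`.

A set `A` is `(f, ε)`-reachable if there is a probabilistic polynomial-time algorithm which, given a
nonempty list of `m` questions is `q` in `A`? of length at most `m ^ ε`, has with probability at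
least `1 / q n` (`n` the length of the list, `q` a polynomial) an output which is a prediction for
some `s > 0` of the questions with `|right - wrong| ≥ f m * √ s`.

* If `f m / √ (log m)` tends to infinity: `NP ⊆ RP` iff `NP ⊆ BPP` iff some `NP`-hard set is
  `(f, ε)`-reachable iff every set in `NP` is solvable (all answers to any list of questions are
  right with probability at least `1 - 2 ^ (-n)`).
* If `f m ≤ c * √ (log m)` for a constant `c`: every set is `(f, ε)`-reachable, by tossing coins.
-/

set_option autoImplicit false

namespace Pool.Agent.Results.MP_b6562f_lc.ExactThreshold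

open Pool.Agent.NPC Pool.Agent.W920.NL Pool.Agent.W901.RL

/-- **The exact threshold for the advantage over random guessing.** -/
theorem result (f : ℕ → ℝ) (hf : ∀ m, 1 ≤ m → f m ≤ Real.sqrt m) (ε : ℝ) (hε : 0 < ε) :
    (Filter.Tendsto (fun m : ℕ => f m / Real.sqrt (Real.log m)) Filter.atTop Filter.atTop →
      List.TFAE
        [∀ L : Set (List Bool), InNP L → InRP L,
          ∀ L : Set (List Bool), InNP L → InBPP L,
          ∃ A : Set (List Bool), NPHard A ∧ Reachable f ε A,
          ∀ A : Set (List Bool), InNP A → Solvable A]) ∧
    ((∃ c : ℝ, ∀ m : ℕ, 2 ≤ m → f m ≤ c * Real.sqrt (Real.log m)) →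
      ∀ A : Set (List Bool), Reachable f ε A) :=
  ⟨fun h => reach_law hf hε h,
    fun ⟨_, hc⟩ A => reachable_coin Pool.Agent.W376.RL.anti hf hc ε A⟩

end Pool.Agent.Results.MP_b6562f_lc.ExactThreshold
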