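import Pool.Agent.W969.MC.Avg4

/-!
Cliques and randomised monotone real circuits with few non-monotone gates, with two-sided error:
size `n ^ (δ min (k, n ^ (2/3 - ε)))`.

The problem is to decide whether an `r`-uniform hypergraph with `n` vertices (a graph for `r = 2`)
has a clique with `k` vertices; for `k = n / 2` it is NP-complete. The circuits compute with real
numbers, their monotone gates compute arbitrary nondecreasing real functions of two arguments
(Pudlák's model), and there may also be some arbitrary further gates, for instance up to `δ log n`
NOT gates. A randomised circuit is a finite nonempty family of circuits from which one is chosen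
uniformly at random (in particular, circuits may have random bits as further inputs). It accepts
hypergraphs with a clique of size `k` with probability at least `p + n ^ (-δ)`, and the others with
probability at most `p` (`p = 1/3` for BPP). For graphs the size is at least `exp (n ^ (2/3 - ε))`
if `k` is `n ^ (2/3 - ε)` or larger, up to `n / 2`.

The proof: an average case version of the approximation method, for a constraint satisfaction
problem on a sparse expanding hypergraph. A monotone real circuit of size `s` cannot tell planted
instances from random ones with an advantage larger than `O(1/q + s (2/q) ^ j)`, where `q` is the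
size of the alphabet and `j` is proportional to the number of variables. For the non-monotone gates
one puts `n ^ δ'` such instances into one hypergraph, and fills them one after the other with random
instances: at some point of this chain the bits that enter the non-monotone gates of a random
circuit of the family change with probability at most `n ^ (-δ) / 2` only. There these gates are
frozen, and the circuit is replaced by its disjunction with the bits that could change; for some
member of the family this is a monotone circuit with an advantage of at least `n ^ (-δ) / 2`.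
-/

namespace Pool.Agent.Results.MP_b6562f_lc.RandomizedMonotoneClique

/-- A real circuit with the input bits `Inp` and the gates `0, ..., s - 1`. Gate `i` has `w i`
inputs, namely `a i j`, each an input bit (`0` or `1`) or an earlier gate, and its value on the
input `x` is `val x i`. The gates outside `T` compute nondecreasing functions of at most two real
numbers. The output of a gate `i` in `T` depends in an arbitrary way on the bits that tell whether
`θ i j` is at most the `j`-th input (a NOT gate, for instance). The circuit accepts if the value of
gate `out` is at least `τ`. -/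
structure RealCircuit (Inp : Type) where
  s : ℕ
  T : Finset (Fin s)
  w : Fin s → ℕ
  a : (i : Fin s) → Fin (w i) → Inp ⊕ Fin s
  op : (i : Fin s) → (Fin (w i) → ℝ) → ℝ
  θ : (i : Fin s) → Fin (w i) → ℝ
  val : (Inp → Bool) → Fin s → ℝ
  out : Fin s
  τ : ℝ
  earlier : ∀ i j k, a i j = Sum.inr k → k < i
  mono : ∀ i ∉ T, w i ≤ 2 ∧ Monotone (op i)
  free : ∀ i ∈ T, ∀ z z' : Fin (w i) → ℝ, (∀ j, θ i j ≤ z j ↔ θ i j ≤ z' j) → op i z = op i z'
  spec : ∀ x i, val x i = op i (fun j =>
    Sum.elim (fun p => if x p = true then (1 : ℝ) else 0) (val x) (a i j))

/-- The circuit accepts the input. -/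
def RealCircuit.Accepts {Inp : Type} (C : RealCircuit Inp) (x : Inp → Bool) : Prop :=
  C.τ ≤ C.val x C.out

/-- The size: the number of gates plus the number of inputs of the gates in `T`. -/
def RealCircuit.size {Inp : Type} (C : RealCircuit Inp) : ℕ := C.s + ∑ i ∈ C.T, C.w i

/-- The product of the numbers `w i + 1` over the gates in `T`. It is `1` if `T` is empty and
`2 ^ t` if `T` consists of `t` NOT gates. -/
def RealCircuit.freedom {Inp : Type} (C : RealCircuit Inp) : ℕ := ∏ i ∈ C.T, (C.w i + 1)

/-- The probability that the input is accepted by a circuit that is chosen uniformly at random from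
the family `C`. -/
noncomputable def acceptance {R Inp : Type} (C : R → RealCircuit Inp) (x : Inp → Bool) : ℝ :=
  (Nat.card {ρ : R // (C ρ).Accepts x} : ℝ) / Nat.card R

/-- The `r`-uniform hypergraph on the vertices `0, ..., n - 1` given by the bits `x` has a clique
with `k` vertices: all `r`-element subsets of some set of `k` vertices are hyperedges. For `r = 2`
this is the clique function of graphs. -/
def HasClique (n r k : ℕ) (x : {e : Finset (Fin n) // e.card = r} → Bool) : Prop :=
  ∃ S : Finset (Fin n), S.card = k ∧ ∀ e : {e : Finset (Fin n) // e.card = r}, e.1 ⊆ S → x e = true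

/-- For all `r ≥ 2` and `ε > 0` there are `δ > 0` and `k0` such that for all `n` and all `k` with
`k0 ≤ k ≤ (n + 1) / 2` and all real `p` the following holds. If a finite nonempty family of real
circuits accepts every `r`-uniform hypergraph with `n` vertices that has a clique with `k` vertices
with probability at least `p + n ^ (-δ)` and all the others with probability at most `p`, and the
number `freedom` of its members is at most `n ^ δ`, then some member has size at least
`n ^ (δ min (k, n ^ (r / (r + 1) - ε)))`. -/
theorem result (r : ℕ) (ε : ℝ) (hr : 2 ≤ r) (hε : 0 < ε) :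
    ∃ δ : ℝ, 0 < δ ∧ ∃ k0 : ℕ, ∀ n k : ℕ, k0 ≤ k → 2 * k ≤ n + 1 →
      ∀ (R : Type) [Finite R] [Nonempty R]
        (C : R → RealCircuit {e : Finset (Fin n) // e.card = r}) (p : ℝ),
        (∀ x, HasClique n r k x → p + (n : ℝ) ^ (-δ) ≤ acceptance C x) →
        (∀ x, ¬ HasClique n r k x → acceptance C x ≤ p) →
        (∀ ρ, ((C ρ).freedom : ℝ) ≤ (n : ℝ) ^ δ) →
        ∃ ρ, (n : ℝ) ^ (δ * min (k : ℝ) ((n : ℝ) ^ ((r : ℝ) / (r + 1) - ε))) ≤
          ((C ρ).size : ℝ) := by
  obtain ⟨δ, hδ, k0, H⟩ := Pool.Agent.W969.MC.clique_rand r hr ε hε
  refine ⟨δ, hδ, k0, ?_⟩
  intro n k hk hkn R _ _ C p h1 h2 h3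
  let _ : Fintype R := Fintype.ofFinite R
  have hR : (0 : ℝ) < Fintype.card R := by exact_mod_cast Fintype.card_pos
  have hacc : ∀ x, acceptance C x * Fintype.card R =
      ({ρ : R | (C ρ).Accepts x}.ncard : ℝ) := by
    intro x
    unfold acceptance
    rw [Nat.card_eq_fintype_card (α := R), div_mul_cancel₀ _ hR.ne']
    rfl
  exact H n k hk hkn R (fun ρ => ⟨(C ρ).s, (C ρ).T, (C ρ).w, (C ρ).a, (C ρ).op, (C ρ).θ,
      (C ρ).val, (C ρ).out, (C ρ).τ, (C ρ).earlier, (C ρ).mono, (C ρ).free, (C ρ).spec⟩) p
    (fun x hx => by
      refine le_trans (mul_le_mul_of_nonneg_right (h1 x hx) hR.le) (le_of_eq ?_)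
      exact hacc x)
    (fun x hx => by
      refine le_trans (le_of_eq ?_) (mul_le_mul_of_nonneg_right (h2 x hx) hR.le)
      exact (hacc x).symm) h3

end Pool.Agent.Results.MP_b6562f_lc.RandomizedMonotoneClique
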