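import Pool.Agent.W896.TS.Sat

/-!
# Randomised machines with a stack need quadratic time times space for satisfiability

The model is a non-uniform randomised machine with two-sided error, `k` two-way heads on the
input, a memory of `log s` bits (`s` nodes) and a stack (pushdown store) of unlimited height; the
number of steps is unlimited too, only the way `T` of the heads on the input is bounded. Without
the last bound the uniform machines of this kind with logarithmic memory, bounded error and
polynomially many random bits (on a tape of their own, which may be read again and again) decide
exactly the languages in BPP (Cook 1971). The theorem says that `T * log s ≥ c M ^ 2` for 3-CNF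
formulas with `M` clauses, even if the advantage of the machine is only `2 ^ (- c M)`.

The machine is a family of deterministic programs, one of which is chosen at random. Such a program
is simulated by `2 k + 1` players with the inputs on their foreheads. The contents of the stack is
described by a list of segments, each of which was produced in one phase of the computation (in a
phase every head stays in one file) and some of whose symbols have been removed; what happens to
the uppermost segment in the present phase depends only on the files of two phases, so that some
player knows it (`Pool.Agent.W896.TS.out_dep`). A segment is given by a node and the number of the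
removed symbols, and this number is less than the number of nodes
(`Pool.Agent.W896.TS.Rch.height`). So few bits are communicated, and the sets of inputs with the
same communication form a partition into cylinder intersections; the lower bound of Babai, Nisan
and Szegedy for the generalised inner product (`Pool.Agent.H541R2.gip_disc` in the starting files)
applies to two-sided error.
-/

set_option autoImplicit false

namespace Pool.Agent.Results.MP_b6562f_lc.StackTwoSided

open Pool.Agent.H554R2.Cnf Pool.Agent.W896.HP Pool.Agent.W896.TS

/-- For every number `k` of heads there is a constant `D` such that for all `M`, `ℓ`, `T` with
`M ≤ 2 ^ ℓ`, for `Q` the set of the satisfiable, or that of the unsatisfiable, 3-CNF formulas with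
`M` clauses and variables named by words of `ℓ` bits, and for all finite families `U r` of
deterministic programs with `k` heads and a stack: if for all `w` in `Q` and `w'` outside `Q` the
probability (over `r`) that `U r` accepts `w` with a total way of the heads of at most `T` exceeds
the probability that `U r` accepts `w'` by at least `2 ^ (- ⌊M / D⌋)`, then some `U r`, with `s`
nodes, satisfies `M ^ 2 ≤ D (T + M) (⌊log₂ s⌋ + 1)`. -/
theorem result (k : ℕ) : ∃ D : ℕ, 0 < D ∧ ∀ (M ℓ T : ℕ), M ≤ 2 ^ ℓ →
    ∀ (Q : (Idx M ℓ → Bool) → Prop), (Q = Sat3 ∨ Q = fun w => ¬ Sat3 w) →
    ∀ (R : Type) [Fintype R] [Nonempty R] (U : R → Prog (Fin k) (Idx M ℓ)),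
      (∀ r, Det (U r)) →
      (∀ w w', Q w → ¬ Q w' → Nat.card R + 2 ^ (M / D) * Nat.card {r // ∃ l, (U r).Acc w' l} ≤
        2 ^ (M / D) *
          Nat.card {r // ∃ l, (U r).Acc w l ∧ travel (fun v => v.1.val) l ≤ T}) →
      ∃ r, M * M ≤ D * ((T + M) * (Nat.log 2 (Fintype.card (U r).State) + 1)) :=
  final k

end Pool.Agent.Results.MP_b6562f_lc.StackTwoSided
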