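import Pool.Agent.H522R3.RC.Num
import Pool.Agent.H522R3.RC.UpNum

set_option autoImplicit false

/-!
# Randomised networks for `k`-SAT which are symmetric under negations: the threshold `32 / 11`

A network reads a `k`-CNF formula `Φ` over the finite set `X` of variables (one input for every clause: is the
clause in `Φ`?) and random coins indexed by `Y`.  Its gates compute arbitrary functions of the multiset of the
values (in an arbitrary set `K`) on their incoming wires.  Negating the variables in a set `a` maps formulas to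
formulas and does not change satisfiability; the network is symmetric under `a`, acting on the coins by the
permutation `σ a`, if this permutation of its inputs extends to an automorphism of the network.

* Lower bound.  Let `D` be a group of `2 ^ r` negation patterns, acting on the coins, such that at most
  `(32 / 11) (1 - ε) r` coins are moved.  If a symmetric network decides a property between solvability of the
  linear system mod `2` (in every clause the number of true literals is odd) and satisfiability with two-sided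
  error less than `1 / 2 - 2 ^ (-ε² r / 64)`, then it has at least `2 ^ (ε² r / 64)` gates.
* Upper bound.  With `(32 / 11 + ε) n + C` coins, on which all `2 ^ n` negation patterns act, symmetry costs
  nothing: every network can be made symmetric, with a polynomially bounded number of additional gates AND, OR,
  NAND and one-sided error `1 / (n + 1)`.
-/

namespace Pool.Agent.Results.MP_b6562f_lc.SymmetricCoins

open Finset Pool.Agent.H30R2 Pool.Agent.H30R2.PS Pool.Agent.H30R2.NS H522R3.ND H522R3.RC

theorem result :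
    (∀ ε : ℝ, 0 < ε → ε ≤ 1 → ∀ k r g : ℕ, (1280 / ε) ^ 2 ≤ (k : ℝ) → k ≤ r → (g : ℝ) ≤ 32 / 11 * (1 - ε) * r →
      ∀ (X Y K Gt : Type) [Fintype Gt] [Fintype Y] (D : AddSubgroup (X → ZMod 2)), Nat.card D = 2 ^ r →
      ∀ σ : D → Equiv.Perm Y, (∀ a b, σ (a + b) = σ a * σ b) → {y | ∃ a, σ a y ≠ y}.ncard ≤ g →
      ∀ (one zero : K) (N : PS.Net (Clause k X ⊕ Y) K Gt), (∀ a : D, SymAt N a.1 (σ a)) →
      ∀ (acc : K → Prop) (P : Set (Clause k X) → Prop), (∀ Φ, OddSat Φ → P Φ) → (∀ Φ, P Φ → Sat Φ) →
      ∀ δ : ℝ, Decides N one zero acc P (2 ^ (k - 1) * (r + 1)) δ → δ < 1 / 2 - 2 ^ (-(ε ^ 2 / 64 * r)) →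
        (2 : ℝ) ^ (ε ^ 2 / 64 * r) ≤ Fintype.card Gt) ∧
    (∀ ε : ℝ, 0 < ε → ε ≤ 1 → ∃ C : ℕ, ∀ (X : Type) [Fintype X] [DecidableEq X],
      ∃ (Y : Type) (_ : Fintype Y) (s : (X → ZMod 2) → Equiv.Perm Y), (∀ a a', s (a + a') = s a * s a') ∧
        (Fintype.card Y : ℝ) ≤ (32 / 11 + ε) * Fintype.card X + C ∧
        ∀ (k Mc : ℕ) (Gt : Type) [Fintype Gt] (N : Net (Clause k X) Bool Gt) (P : Set (Clause k X) → Prop),
          (∀ t Φ, P (seen t Φ) ↔ P Φ) →
          (∀ Φ : Set (Clause k X), Φ.Finite → Φ.ncard ≤ Mc → (N.eval (ind Φ) = true ↔ P Φ)) →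
          ∃ (Gt' : Type) (_ : Fintype Gt') (N' : Net (Clause k X ⊕ Y) Bool Gt'),
            (∀ a, SymAt N' a (s a)) ∧ OnlyNew N N' ∧
            Fintype.card Gt' ≤ Fintype.card Gt + (2 ^ k + 1) * (2 * Fintype.card X) ^ k +
              C * (Fintype.card X + 1) ^ C ∧
            ∀ Φ : Set (Clause k X), Φ.Finite → Φ.ncard ≤ Mc →
              (P Φ → 1 - 1 / (Fintype.card X + 1) ≤ Pr fun y => N'.eval (data true false Φ y) = true) ∧
              (¬ P Φ → ∀ y, N'.eval (data true false Φ y) = false)) := by
  refine ⟨?_, ?_⟩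
  · intro ε hε hε1 k r g hk hkr hg X Y K Gt _ _ D hD σ hσ hgσ one zero N hN acc P h1 h2 δ hdec hδ
    exact lower_num hε hε1 hk hkr hg D hD σ hσ hgσ one zero N hN acc P h1 h2 δ hdec hδ
  · intro ε hε hε1
    exact upper_num hε hε1

end Pool.Agent.Results.MP_b6562f_lc.SymmetricCoins
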